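import Pool.Agent.W5h30.Sq.Stage

set_option autoImplicit false

namespace Pool.Agent.W5h30.Sq

open Finset MeasureTheory Filter Topology

lemma exists_start (ρ : ℕ → ℝ) (hρ : Rad ρ) :
    ∃ q0 : ℕ, 1 ≤ q0 ∧ volume (Set.Icc (-(1 / 4) : ℝ) (1 / 4) \ Ex ρ q0 2) ≠ 0 := by
  obtain ⟨Q, hQ⟩ : ∃ Q : ℕ, ∑' k : ℕ, (((k + (Q + 1) : ℕ) : ℝ) * ρ (k + (Q + 1))) < 1 / 100 := by
    have h1 := tendsto_sum_nat_add fun q : ℕ => (q : ℝ) * ρ q
    have h2 := (h1.comp (tendsto_add_atTop_nat 1)).eventually (gt_mem_nhds (show (0 : ℝ) < 1 / 100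
      by positivity))
    obtain ⟨Q, h3⟩ := h2.exists
    exact ⟨Q, h3⟩
  refine ⟨Q + 1, by omega, fun hzero => ?_⟩
  have e0 : Set.Icc (-(1 / 4) : ℝ) (1 / 4) = J 1 (1 / 4) 0 := by
    unfold J
    norm_num
  rw [e0] at hzero
  have h1 : volume (J 1 (1 / 4) 0) = volume (J 1 (1 / 4) 0 ∩ Ex ρ (Q + 1) 2) := by
    have := measure_inter_add_sdiff (μ := volume) (J 1 (1 / 4) 0) (Ex_open ρ (Q + 1) 2).measurableSet
    rw [hzero, add_zero] at this
    exact this.symm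
  have h2 : volume (J 1 (1 / 4) 0) = ENNReal.ofReal (1 / 2) := by
    rw [J, Real.volume_Icc]
    congr 1
    norm_num
  have h3 : J 1 (1 / 4) 0 ∩ Ex ρ (Q + 1) 2 ⊆
      ⋃ k : ℕ, (J 1 (1 / 4) 0 ∩ Nb (k + (Q + 1)) (2 * ρ (k + (Q + 1)))) := by
    rintro y ⟨hy, hy2⟩
    simp only [Ex, Set.mem_iUnion] at hy2
    obtain ⟨q, hq1, hq2⟩ := hy2
    rw [Set.mem_iUnion]
    refine ⟨q - (Q + 1), hy, ?_⟩
    rw [Nat.sub_add_cancel hq1]
    exact hq2
  have h4 : volume (J 1 (1 / 4) 0 ∩ Ex ρ (Q + 1) 2) ≤ ENNReal.ofReal (24 * (1 / 100)) := by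
    refine le_trans (measure_mono h3) (le_trans (measure_iUnion_le _) ?_)
    refine ENNReal.tsum_le_of_sum_range_le fun K => ?_
    have h5 : ∀ k ∈ range K, volume (J 1 (1 / 4) 0 ∩ Nb (k + (Q + 1)) (2 * ρ (k + (Q + 1)))) ≤
        ENNReal.ofReal (24 * (((k + (Q + 1) : ℕ) : ℝ) * ρ (k + (Q + 1)))) := by
      intro k _
      have h2 := hρ.nonneg (k + (Q + 1))
      have h2a : 0 ≤ 2 * ρ (k + (Q + 1)) := by positivity
      have h6 := sum_measure_le 1 (k + (Q + 1)) one_pos (Nat.succ_pos _) 0 (1 / 4)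
        (2 * ρ (k + (Q + 1))) (by norm_num) h2a {0} (by simp)
      rw [Finset.sum_singleton] at h6
      refine le_trans h6 ?_
      refine ENNReal.ofReal_le_ofReal ?_
      rw [Nat.gcd_one_right]
      have hq1 : (1 : ℝ) ≤ ((k + (Q + 1) : ℕ) : ℝ) := by
        have : 1 ≤ k + (Q + 1) := by omega
        exact_mod_cast this
      set q : ℝ := ((k + (Q + 1) : ℕ) : ℝ) with hq
      set r := ρ (k + (Q + 1)) with hr
      have h7 : r ≤ 1 / q ^ 2 := hρ.le _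
      have h8 : r ≤ 1 := by
        refine le_trans h7 ?_
        rw [div_le_one (by positivity)]
        nlinarith
      have h9 : min (1 / 4) (2 * r) ≤ 2 * r := min_le_right _ _
      have h10 : (2 * ((2 * r + 1 / 4) * q * ((1 : ℕ) : ℝ)) + ((1 : ℕ) : ℝ)) * (2 * min (1 / 4) (2 * r)) ≤
          (6 * q) * (2 * (2 * r)) := by
        refine mul_le_mul ?_ (by linarith) (by positivity) (by positivity)
        push_cast
        nlinarith
      linarith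
    refine le_trans (Finset.sum_le_sum h5) ?_
    rw [← ENNReal.ofReal_sum_of_nonneg (fun k _ => by
      have := hρ.nonneg (k + (Q + 1))
      positivity)]
    refine ENNReal.ofReal_le_ofReal ?_
    rw [← Finset.mul_sum]
    refine mul_le_mul_of_nonneg_left (le_trans ?_ hQ.le) (by norm_num)
    have hs : Summable fun k : ℕ => ((k + (Q + 1) : ℕ) : ℝ) * ρ (k + (Q + 1)) :=
      (summable_nat_add_iff (f := fun q : ℕ => (q : ℝ) * ρ q) (Q + 1)).2 hρ.summ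
    exact hs.sum_le_tsum _ (fun k _ => by
      have := hρ.nonneg (k + (Q + 1))
      positivity)
  rw [← h1, h2] at h4
  have h5 := (ENNReal.ofReal_le_ofReal_iff (by norm_num)).1 h4
  norm_num at h5

/-- **The construction.** For all admissible radii `ρ` and all `τ < 4` there is a number which has
distance at least `ρ q` from all fractions with denominator `q ≥ q0`, but which has distance at most
`m ^ (-τ)` from a fraction with denominator `m ^ 2` for infinitely many (prime) `m`. -/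
theorem exists_alpha (ρ : ℕ → ℝ) (hρ : Rad ρ) (τ : ℝ) (hτ1 : 2 < τ) (hτ : τ < 4) :
    ∃ α : ℝ, (∃ q0 : ℕ, 1 ≤ q0 ∧ ∀ q : ℕ, q0 ≤ q → ∀ b : ℤ, ρ q ≤ |α - b / q|) ∧
      ∀ B : ℕ, ∃ m : ℕ, B ≤ m ∧ m.Prime ∧ ∃ a : ℤ, |α - a / (m : ℝ) ^ 2| ≤ (m : ℝ) ^ (-τ) := by
  obtain ⟨q0, hq0, hstart⟩ := exists_start ρ hρ
  let c : ℕ → ℝ := fun j => 1 + 1 / ((j : ℝ) + 1)
  let Good : ℕ → ℝ × ℝ → Prop := fun j p =>
    p.2 ≤ p.1 + 1 / 2 ∧ volume (Set.Icc p.1 p.2 \ Ex ρ q0 (c j)) ≠ 0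
  have hstep : ∀ (j : ℕ) (s : {p // Good j p}), ∃ t : {p // Good (j + 1) p}, ∃ (m : ℕ) (a : ℤ),
      j + 2 ≤ m ∧ m.Prime ∧ t.1 = ((a : ℝ) / ((m ^ 2 : ℕ) : ℝ) - (m : ℝ) ^ (-τ),
        (a : ℝ) / ((m ^ 2 : ℕ) : ℝ) + (m : ℝ) ^ (-τ)) ∧
        Set.Icc t.1.1 t.1.2 ⊆ Set.Icc s.1.1 s.1.2 := by
    rintro j ⟨⟨u, v⟩, huv, hpos⟩
    obtain ⟨m, a, h1, h2, h3, h4⟩ := stage ρ hρ q0 hq0 τ hτ1 hτ (c (j + 1)) (c j) (by
        simp only [c]
        have : 0 ≤ 1 / (((j + 1 : ℕ) : ℝ) + 1) := by positivity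
        linarith) (by
        simp only [c]
        have : 1 / (((j + 1 : ℕ) : ℝ) + 1) < 1 / ((j : ℝ) + 1) := by
          apply one_div_lt_one_div_of_lt (by positivity)
          push_cast
          linarith
        linarith) (by
        simp only [c]
        have : 1 / ((j : ℝ) + 1) ≤ 1 := by
          rw [div_le_one (by positivity)]
          have : (0 : ℝ) ≤ j := Nat.cast_nonneg _
          linarith
        linarith) u v huv hpos (j + 2)
    refine ⟨⟨((a : ℝ) / ((m ^ 2 : ℕ) : ℝ) - (m : ℝ) ^ (-τ),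
      (a : ℝ) / ((m ^ 2 : ℕ) : ℝ) + (m : ℝ) ^ (-τ)), ?_, h4⟩, m, a, h1, h2, rfl, h3⟩
    have hm2 : (2 : ℝ) ≤ m := by exact_mod_cast h2.two_le
    have h5 : (m : ℝ) ^ (-τ) ≤ (m : ℝ) ^ (-(2 : ℝ)) :=
      Real.rpow_le_rpow_of_exponent_le (by linarith) (by linarith)
    have h6 : (m : ℝ) ^ (-(2 : ℝ)) ≤ 1 / 4 := by
      rw [Real.rpow_neg (by linarith), show ((2 : ℝ)) = ((2 : ℕ) : ℝ) by norm_num,
        Real.rpow_natCast, inv_eq_one_div]
      rw [div_le_div_iff₀ (by positivity) (by norm_num)]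
      nlinarith
    show (a : ℝ) / ((m ^ 2 : ℕ) : ℝ) + (m : ℝ) ^ (-τ) ≤
      (a : ℝ) / ((m ^ 2 : ℕ) : ℝ) - (m : ℝ) ^ (-τ) + 1 / 2
    linarith
  choose F hF using hstep
  have hgood0 : Good 0 (-(1 / 4), 1 / 4) := by
    refine ⟨by norm_num, ?_⟩
    have : c 0 = 2 := by simp only [c]; norm_num
    rw [this]
    exact hstart
  let S : ∀ j : ℕ, {p // Good j p} := fun j => Nat.rec ⟨_, hgood0⟩ (fun j s => F j s) j
  have hS : ∀ j, S (j + 1) = F j (S j) := fun j => rfl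
  have hnest : ∀ j, Set.Icc (S (j + 1)).1.1 (S (j + 1)).1.2 ⊆ Set.Icc (S j).1.1 (S j).1.2 := by
    intro j
    rw [hS]
    obtain ⟨m, a, -, -, -, h⟩ := hF j (S j)
    exact h
  have hne : ∀ j, (Set.Icc (S j).1.1 (S j).1.2 \ Ex ρ q0 (c j)).Nonempty := by
    intro j
    exact nonempty_of_measure_ne_zero (S j).2.2
  obtain ⟨α, hα⟩ := IsCompact.nonempty_iInter_of_sequence_nonempty_isCompact_isClosed
    (fun j => Set.Icc (S j).1.1 (S j).1.2) hnest
    (fun j => (hne j).mono Set.sdiff_subset) isCompact_Icc (fun j => isClosed_Icc)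
  rw [Set.mem_iInter] at hα
  have hm : ∀ j, ∃ (m : ℕ) (a : ℤ), j + 2 ≤ m ∧ m.Prime ∧
      (S (j + 1)).1 = ((a : ℝ) / ((m ^ 2 : ℕ) : ℝ) - (m : ℝ) ^ (-τ),
        (a : ℝ) / ((m ^ 2 : ℕ) : ℝ) + (m : ℝ) ^ (-τ)) := by
    intro j
    rw [hS]
    obtain ⟨m, a, h1, h2, h3, -⟩ := hF j (S j)
    exact ⟨m, a, h1, h2, h3⟩
  refine ⟨α, ⟨q0, hq0, ?_⟩, ?_⟩
  · intro q hq b
    refine le_of_forall_pos_le_add fun ε hε => ?_
    obtain ⟨j, hj⟩ := exists_nat_gt (2 / ε)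
    obtain ⟨m, a, h1, h2, h3⟩ := hm j
    obtain ⟨x, hx, hx2⟩ := hne (j + 1)
    have hα' := hα (j + 1)
    rw [h3] at hx hα'
    have hx3 : ρ q ≤ |x - b / q| := by
      by_contra hcon
      push Not at hcon
      apply hx2
      simp only [Ex, Set.mem_iUnion]
      refine ⟨q, hq, b, lt_of_lt_of_le hcon ?_⟩
      have h5 : 1 ≤ c (j + 1) := by
        simp only [c]
        have : 0 ≤ 1 / (((j + 1 : ℕ) : ℝ) + 1) := by positivity
        linarith
      have := hρ.nonneg q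
      nlinarith
    have hmR : (1 : ℝ) ≤ m := by exact_mod_cast h2.one_lt.le
    have h6 : (m : ℝ) ^ (-τ) ≤ (m : ℝ) ^ (-(1 : ℝ)) :=
      Real.rpow_le_rpow_of_exponent_le hmR (by linarith)
    rw [Real.rpow_neg_one] at h6
    have h7 : (m : ℝ)⁻¹ ≤ ε / 2 := by
      rw [inv_le_comm₀ (by linarith) (by positivity)]
      have : (j : ℝ) + 2 ≤ m := by exact_mod_cast h1
      have e : (ε / 2)⁻¹ = 2 / ε := by rw [inv_div]
      rw [e]
      linarith
    have h8 : |x - α| ≤ ε := by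
      rw [abs_le]
      obtain ⟨h9, h10⟩ := hx
      obtain ⟨h11, h12⟩ := hα'
      simp only at h9 h10 h11 h12
      constructor <;> linarith
    have h9 : |x - b / q| ≤ |x - α| + |α - b / q| := abs_sub_le _ _ _
    linarith
  · intro B
    obtain ⟨m, a, h1, h2, h3⟩ := hm B
    refine ⟨m, by omega, h2, a, ?_⟩
    have hα' := hα (B + 1)
    rw [h3] at hα'
    obtain ⟨h11, h12⟩ := hα'
    simp only at h11 h12
    push_cast at h11 h12
    rw [abs_le]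
    constructor <;> linarith

end Pool.Agent.W5h30.Sq
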