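import Pool.Agent.W5h30.Sq.Radii

set_option autoImplicit false

namespace Pool.Agent.W5h30.Sq

open Finset Filter Topology

/-- `x_n`, the fractional part of `n² α` -/
noncomputable def pt (α : ℝ) (n : ℕ) : ℝ := Int.fract ((n : ℝ) ^ 2 * α)

/-- the `(k+1)`-level correlation of `x_1, …, x_N` with test function `f` on `ℝ^k` -/
noncomputable def corr (α : ℝ) (k : ℕ) (f : (Fin k → ℝ) → ℝ) (N : ℕ) : ℝ :=
  1 / (N : ℝ) * ∑ n ∈ (Fintype.piFinset fun _ : Fin (k + 1) => Finset.Icc 1 N).filter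
      (fun n : Fin (k + 1) → ℕ => Function.Injective n),
    ∑' m : Fin k → ℤ, f fun i => N * (pt α (n i.castSucc) - pt α (n i.succ) + m i)

/-- the test function -/
noncomputable def tent (k : ℕ) (x : Fin k → ℝ) : ℝ := max 0 (3 - ‖x‖)

lemma tent_nonneg (k : ℕ) (x : Fin k → ℝ) : 0 ≤ tent k x := le_max_left _ _

lemma tent_cont (k : ℕ) : Continuous (tent k) := by
  unfold tent
  fun_prop

lemma tent_zero {k : ℕ} {x : Fin k → ℝ} (h : 3 ≤ ‖x‖) : tent k x = 0 := by
  unfold tent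
  rw [max_eq_left]
  linarith

lemma tent_supp (k : ℕ) : HasCompactSupport (tent k) := by
  refine HasCompactSupport.intro (isCompact_closedBall (0 : Fin k → ℝ) 3) fun x hx => ?_
  apply tent_zero
  rw [Metric.mem_closedBall, dist_zero_right, not_le] at hx
  exact hx.le

lemma one_le_tent {k : ℕ} {x : Fin k → ℝ} (h : ∀ i, |x i| ≤ 2) : 1 ≤ tent k x := by
  unfold tent
  refine le_trans ?_ (le_max_right _ _)
  have : ‖x‖ ≤ 2 := (pi_norm_le_iff_of_nonneg (by norm_num)).2 fun i => by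
    rw [Real.norm_eq_abs]; exact h i
  linarith

lemma tent_summable (k N : ℕ) (hN : 0 < N) (y : Fin k → ℝ) :
    Summable fun m : Fin k → ℤ => tent k fun i => N * (y i + m i) := by
  have hNR : (1 : ℝ) ≤ N := by exact_mod_cast hN
  refine summable_of_ne_finset_zero (s := Fintype.piFinset fun i : Fin k =>
    Finset.Icc ⌊-3 - y i⌋ ⌈3 - y i⌉) fun m hm => ?_
  apply tent_zero
  by_contra hcon
  push Not at hcon
  apply hm
  rw [Fintype.mem_piFinset]
  intro i
  have h1 : |(N : ℝ) * (y i + m i)| < 3 := by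
    have := norm_le_pi_norm (fun i => (N : ℝ) * (y i + m i)) i
    rw [Real.norm_eq_abs] at this
    exact lt_of_le_of_lt this hcon
  rw [abs_mul, abs_of_nonneg (by linarith : (0 : ℝ) ≤ N)] at h1
  have h2 : |y i + m i| < 3 := by
    have := abs_nonneg (y i + m i)
    nlinarith
  rw [abs_lt] at h2
  rw [Finset.mem_Icc]
  constructor
  · have : ((⌊-3 - y i⌋ : ℤ) : ℝ) ≤ m i := le_trans (Int.floor_le _) (by linarith [h2.1])
    exact_mod_cast this
  · have : ((m i : ℤ) : ℝ) ≤ ⌈3 - y i⌉ := le_trans (by linarith [h2.2]) (Int.le_ceil _)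
    exact_mod_cast this

/-- lower bound for the correlation -/
lemma corr_ge (α : ℝ) (k m N L : ℕ) (a : ℤ) (δ : ℝ) (hm : 0 < m) (hN : 0 < N)
    (hL : m * L ≤ N) (hα : |α - a / (m : ℝ) ^ 2| ≤ δ) (hδ : (N : ℝ) ^ 3 * δ ≤ 1) :
    1 / (N : ℝ) * (L.descFactorial (k + 1) : ℝ) ≤ corr α k (tent k) N := by
  classical
  unfold corr
  have hNR : (0 : ℝ) < N := by exact_mod_cast hN
  refine mul_le_mul_of_nonneg_left ?_ (by positivity)
  set I := (Fintype.piFinset fun _ : Fin (k + 1) => Finset.Icc 1 N).filter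
      (fun n : Fin (k + 1) → ℕ => Function.Injective n) with hI
  let F : (Fin (k + 1) ↪ Fin L) → (Fin (k + 1) → ℕ) := fun e i => m * ((e i : ℕ) + 1)
  have hFinj : Function.Injective F := by
    intro e e' h
    ext i
    have := congrFun h i
    simp only [F] at this
    have h2 := Nat.eq_of_mul_eq_mul_left hm this
    omega
  have hFmem : ∀ e, F e ∈ I := by
    intro e
    rw [hI, Finset.mem_filter, Fintype.mem_piFinset]
    refine ⟨fun i => ?_, fun i i' h => ?_⟩
    · rw [Finset.mem_Icc]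
      have h1 := (e i).2
      refine ⟨Nat.mul_pos hm (by omega), le_trans (Nat.mul_le_mul_left m ?_) hL⟩
      omega
    · simp only [F] at h
      have h2 := Nat.eq_of_mul_eq_mul_left hm h
      exact e.injective (Fin.ext (by omega))
  have hterm0 : ∀ n : Fin (k + 1) → ℕ, 0 ≤ ∑' m : Fin k → ℤ,
      tent k fun i => N * (pt α (n i.castSucc) - pt α (n i.succ) + m i) := fun n =>
    tsum_nonneg fun m => tent_nonneg _ _
  have hterm : ∀ e : Fin (k + 1) ↪ Fin L, 1 ≤ ∑' m : Fin k → ℤ,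
      tent k fun i => N * (pt α (F e i.castSucc) - pt α (F e i.succ) + m i) := by
    intro e
    -- the errors
    let θ : ℕ → ℝ := fun n => (n : ℝ) ^ 2 * (α - a / (m : ℝ) ^ 2)
    let z : Fin (k + 1) → ℤ := fun i => ((e i : ℕ) + 1 : ℤ) ^ 2 * a
    have hθ : ∀ i, (F e i : ℝ) ^ 2 * α = z i + θ (F e i) := by
      intro i
      simp only [F, z, θ]
      have hmR : (0 : ℝ) < m := by exact_mod_cast hm
      push_cast
      field_simp
      ring
    have hθle : ∀ i, |θ (F e i)| ≤ (N : ℝ) ^ 2 * δ := by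
      intro i
      simp only [θ]
      rw [abs_mul, abs_of_nonneg (by positivity)]
      have h1 : F e i ≤ N := by
        have h1 := (e i).2
        refine le_trans (Nat.mul_le_mul_left m ?_) hL
        omega
      have h2 : ((F e i : ℕ) : ℝ) ≤ N := by exact_mod_cast h1
      gcongr
    let M : Fin k → ℤ := fun i => ⌊(F e i.castSucc : ℝ) ^ 2 * α⌋ - ⌊(F e i.succ : ℝ) ^ 2 * α⌋ -
      (z i.castSucc - z i.succ)
    have hM : ∀ i : Fin k, pt α (F e i.castSucc) - pt α (F e i.succ) + M i =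
        θ (F e i.castSucc) - θ (F e i.succ) := by
      intro i
      simp only [pt, M, Int.fract]
      push_cast
      rw [hθ, hθ]
      ring
    have h1 := (tent_summable k N hN fun i => pt α (F e i.castSucc) - pt α (F e i.succ)).le_tsum M
      (fun _ _ => tent_nonneg _ _)
    refine le_trans ?_ h1
    apply one_le_tent
    intro i
    rw [hM, abs_mul, abs_of_pos hNR]
    have h2 : |θ (F e i.castSucc) - θ (F e i.succ)| ≤ (N : ℝ) ^ 2 * δ + (N : ℝ) ^ 2 * δ :=
      le_trans (abs_sub _ _) (add_le_add (hθle _) (hθle _))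
    calc (N : ℝ) * |θ (F e i.castSucc) - θ (F e i.succ)| ≤
          N * ((N : ℝ) ^ 2 * δ + (N : ℝ) ^ 2 * δ) := mul_le_mul_of_nonneg_left h2 hNR.le
      _ = 2 * ((N : ℝ) ^ 3 * δ) := by ring
      _ ≤ 2 := by linarith
  have hcard : (L.descFactorial (k + 1) : ℝ) = ∑ _e : (Fin (k + 1) ↪ Fin L), (1 : ℝ) := by
    rw [Finset.sum_const, nsmul_eq_mul, mul_one, Finset.card_univ, Fintype.card_embedding_eq,
      Fintype.card_fin, Fintype.card_fin]
  rw [hcard]
  calc ∑ _e : (Fin (k + 1) ↪ Fin L), (1 : ℝ) ≤ ∑ e : (Fin (k + 1) ↪ Fin L), ∑' m : Fin k → ℤ,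
      tent k fun i => N * (pt α (F e i.castSucc) - pt α (F e i.succ) + m i) :=
        Finset.sum_le_sum fun e _ => hterm e
    _ = ∑ n ∈ Finset.univ.image F, ∑' m : Fin k → ℤ,
      tent k fun i => N * (pt α (n i.castSucc) - pt α (n i.succ) + m i) := by
        rw [Finset.sum_image fun _ _ _ _ h => hFinj h]
    _ ≤ _ := by
        refine Finset.sum_le_sum_of_subset_of_nonneg ?_ fun n _ _ => hterm0 n
        intro n hn
        obtain ⟨e, -, rfl⟩ := Finset.mem_image.1 hn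
        exact hFmem e

/-- divergence of the correlations -/
lemma corr_unbounded (α : ℝ) (hα : ∀ B : ℕ, ∃ m : ℕ, B ≤ m ∧ m.Prime ∧ ∃ a : ℤ,
    |α - a / (m : ℝ) ^ 2| ≤ (m : ℝ) ^ (-(39 / 10) : ℝ)) (k : ℕ) (hk : 4 ≤ k) (K : ℝ) (N0 : ℕ) :
    ∃ N : ℕ, N0 ≤ N ∧ K ≤ corr α k (tent k) N := by
  -- `y = m ^ (1/10)`
  have ht : Tendsto (fun m : ℕ => (m : ℝ) ^ ((1 : ℝ) / 10)) atTop atTop :=
    (tendsto_rpow_atTop (by norm_num)).comp tendsto_natCast_atTop_atTop
  obtain ⟨B, hB⟩ := eventually_atTop.1 (ht.eventually (eventually_ge_atTop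
    (max (N0 + 1 : ℝ) (max (2 * (k + 3)) (|K| * 2 ^ (k + 1) + 1)))))
  obtain ⟨m, hBm, hmp, a, ha⟩ := hα B
  have hy := hB m hBm
  set y : ℝ := (m : ℝ) ^ ((1 : ℝ) / 10) with hydef
  have hy1 : (N0 + 1 : ℝ) ≤ y := le_trans (le_max_left _ _) hy
  have hy2 : 2 * ((k : ℝ) + 3) ≤ y := le_trans (le_trans (le_max_left _ _) (le_max_right _ _)) hy
  have hy3 : |K| * 2 ^ (k + 1) + 1 ≤ y := le_trans (le_trans (le_max_right _ _) (le_max_right _ _)) hy
  have hkR : (4 : ℝ) ≤ k := by exact_mod_cast hk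
  have hy4 : 1 ≤ y := by linarith
  have hm0 : 0 < m := hmp.pos
  have hmR : (0 : ℝ) < m := by exact_mod_cast hm0
  have hym : (m : ℝ) = y ^ 10 := by
    rw [hydef, ← Real.rpow_natCast, ← Real.rpow_mul hmR.le]
    norm_num
  have hym13 : y ^ 13 = (m : ℝ) ^ ((13 : ℝ) / 10) := by
    rw [hydef, ← Real.rpow_natCast, ← Real.rpow_mul hmR.le]
    norm_num
  -- `N` and `L`
  set N := ⌊y ^ 13⌋₊ with hN
  have hNle : (N : ℝ) ≤ y ^ 13 := Nat.floor_le (by positivity)
  have hNge : y ^ 13 < N + 1 := Nat.lt_floor_add_one _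
  have hN1 : 1 ≤ N := by
    rw [hN, Nat.one_le_floor_iff]
    exact one_le_pow₀ hy4
  set L := N / m with hL
  have hmL : m * L ≤ N := Nat.mul_div_le _ _
  have hLge : y ^ 3 - 2 ≤ L := by
    have h1 : N < m * (L + 1) := Nat.lt_mul_div_succ N hm0
    have h2 : (N : ℝ) + 1 ≤ m * (L + 1) := by exact_mod_cast h1
    have h3 : y ^ 13 < y ^ 10 * (L + 1) := by rw [← hym]; linarith
    have h4 : y ^ 13 = y ^ 10 * y ^ 3 := by ring
    rw [h4] at h3
    have h5 := lt_of_mul_lt_mul_left h3 (by positivity)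
    linarith
  have hy33 : y ≤ y ^ 3 := le_self_pow₀ hy4 (by norm_num)
  refine ⟨N, ?_, ?_⟩
  · have h1 : y ≤ y ^ 13 := le_self_pow₀ hy4 (by norm_num)
    have h2 : (N0 : ℝ) ≤ N := by linarith
    exact_mod_cast h2
  · have hδ : (N : ℝ) ^ 3 * (m : ℝ) ^ (-(39 / 10) : ℝ) ≤ 1 := by
      have h1 : (N : ℝ) ^ 3 ≤ (y ^ 13) ^ 3 := pow_le_pow_left₀ (by positivity) hNle 3
      have h2 : (y ^ 13) ^ 3 = (m : ℝ) ^ ((39 : ℝ) / 10) := by
        rw [hym13, ← Real.rpow_natCast, ← Real.rpow_mul hmR.le]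
        norm_num
      rw [h2] at h1
      rw [Real.rpow_neg hmR.le, ← div_eq_mul_inv, div_le_one (by positivity)]
      exact h1
    have h1 := corr_ge α k m N L a _ hm0 hN1 hmL ha hδ
    refine le_trans ?_ h1
    have h2 : (L + 1 - (k + 1)) ^ (k + 1) ≤ L.descFactorial (k + 1) :=
      Nat.pow_sub_le_descFactorial L (k + 1)
    have hNR : (0 : ℝ) < N := by exact_mod_cast hN1
    have h3 : y ^ 3 / 2 ≤ ((L + 1 - (k + 1) : ℕ) : ℝ) := by
      have h4 : (k : ℝ) ≤ L := by nlinarith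
      have h5 : k ≤ L := by exact_mod_cast h4
      have h6 : ((L + 1 - (k + 1) : ℕ) : ℝ) = L - k := by
        rw [show L + 1 - (k + 1) = L - k by omega]
        push_cast [h5]
        ring
      rw [h6]
      linarith
    have h4 : (y ^ 3 / 2) ^ (k + 1) ≤ (L.descFactorial (k + 1) : ℝ) := by
      refine le_trans (pow_le_pow_left₀ (by positivity) h3 _) ?_
      exact_mod_cast h2
    have h5 : y ^ 15 / 2 ^ (k + 1) ≤ (y ^ 3 / 2) ^ (k + 1) := by
      rw [div_pow, ← pow_mul]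
      refine div_le_div_of_nonneg_right ?_ (by positivity)
      exact pow_le_pow_right₀ hy4 (by omega)
    rw [one_div, inv_mul_eq_div, le_div_iff₀ hNR]
    have h6 : K * N ≤ |K| * y ^ 13 := by
      calc K * N ≤ |K| * N := mul_le_mul_of_nonneg_right (le_abs_self K) hNR.le
        _ ≤ |K| * y ^ 13 := mul_le_mul_of_nonneg_left hNle (abs_nonneg K)
    refine le_trans h6 (le_trans ?_ (le_trans h5 h4))
    rw [le_div_iff₀ (by positivity)]
    have h7 : |K| * 2 ^ (k + 1) ≤ y ^ 2 := by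
      have : y ≤ y ^ 2 := le_self_pow₀ hy4 (by norm_num)
      linarith
    calc |K| * y ^ 13 * 2 ^ (k + 1) = (|K| * 2 ^ (k + 1)) * y ^ 13 := by ring
      _ ≤ y ^ 2 * y ^ 13 := mul_le_mul_of_nonneg_right h7 (by positivity)
      _ = y ^ 15 := by ring

end Pool.Agent.W5h30.Sq
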