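import Mathlib

set_option autoImplicit false

namespace Pool.Agent.W5h30.Sq

open Finset

/-- the number of integers `h` with `|h| < H` -/
lemma card_abs_lt (S : Finset ℤ) (H : ℝ) (hH : 0 ≤ H) (hS : ∀ h ∈ S, |(h : ℝ)| < H) :
    (S.card : ℝ) ≤ 2 * H + 1 := by
  have h1 : S ⊆ Icc (-⌊H⌋) ⌊H⌋ := by
    intro h hh
    have h2 := abs_lt.1 (hS h hh)
    rw [mem_Icc]
    constructor
    · have : -h ≤ ⌊H⌋ := Int.le_floor.2 (by push_cast; linarith)
      linarith
    · exact Int.le_floor.2 (by linarith)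
  have h2 := card_le_card h1
  rw [Int.card_Icc] at h2
  have h3 : (0 : ℤ) ≤ ⌊H⌋ := Int.floor_nonneg.2 hH
  have h4 : ((⌊H⌋ + 1 - -⌊H⌋).toNat : ℝ) = 2 * (⌊H⌋ : ℝ) + 1 := by
    have : ((⌊H⌋ + 1 - -⌊H⌋).toNat : ℤ) = 2 * ⌊H⌋ + 1 := by omega
    exact_mod_cast this
  have h5 : (S.card : ℝ) ≤ ((⌊H⌋ + 1 - -⌊H⌋).toNat : ℝ) := by exact_mod_cast h2
  have h6 := Int.floor_le H
  linarith

/-- the number of pairs `(a, b)` such that `a / M` is close to `b / q` -/
lemma card_pairs (M q : ℕ) (hM : 0 < M) (a0 : ℤ) (H : ℝ) (hH : 0 ≤ H)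
    (P : Finset (ℤ × ℤ)) (hP : ∀ p ∈ P, a0 ≤ p.1 ∧ p.1 < a0 + M ∧
      |((p.2 * M - p.1 * q : ℤ) : ℝ)| < H) :
    (P.card : ℝ) ≤ 2 * H + Nat.gcd q M := by
  classical
  set g := Nat.gcd q M with hg
  have hg0 : 0 < g := Nat.gcd_pos_of_pos_right _ hM
  obtain ⟨M', hM'⟩ : g ∣ M := Nat.gcd_dvd_right _ _
  obtain ⟨q', hq'⟩ : g ∣ q := Nat.gcd_dvd_left _ _
  have hM'0 : 0 < M' := by
    rcases Nat.eq_zero_or_pos M' with h | h
    · rw [h, mul_zero] at hM'; omega
    · exact h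
  have hcop : Nat.Coprime q' M' := by
    have h1 : Nat.gcd q M = g * Nat.gcd q' M' := by
      conv_lhs => rw [hq', hM']
      rw [Nat.gcd_mul_left]
    rw [← hg] at h1
    exact Nat.eq_of_mul_eq_mul_left hg0 (by rw [← h1, mul_one])
  -- the map
  let F : ℤ × ℤ → ℤ × ℕ := fun p => (p.2 * M' - p.1 * q', ((p.1 - a0) / M').toNat)
  let S : Finset ℤ := P.image fun p => p.2 * M' - p.1 * q'
  have hinj : Set.InjOn F P := by
    rintro ⟨a, b⟩ h1 ⟨a2, b2⟩ h2 h3
    simp only [F, Prod.mk.injEq] at h3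
    obtain ⟨h3, h4⟩ := h3
    obtain ⟨h5, h6, -⟩ := hP _ h1
    obtain ⟨h7, h8, -⟩ := hP _ h2
    simp only at h5 h6 h7 h8
    have h9 : (b - b2) * (M' : ℤ) = (a - a2) * q' := by linarith
    have h10 : (M' : ℤ) ∣ (a - a2) * q' := ⟨b - b2, by rw [← h9]; ring⟩
    have h11 : (M' : ℤ) ∣ a - a2 := by
      refine IsCoprime.dvd_of_dvd_mul_right ?_ h10
      exact (Nat.isCoprime_iff_coprime.2 hcop).symm
    have hM'z : (0 : ℤ) < M' := by exact_mod_cast hM'0
    have h12 : 0 ≤ (a - a0) / (M' : ℤ) := Int.ediv_nonneg (by linarith) hM'z.le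
    have h13 : 0 ≤ (a2 - a0) / (M' : ℤ) := Int.ediv_nonneg (by linarith) hM'z.le
    have h14 : (a - a0) / (M' : ℤ) = (a2 - a0) / (M' : ℤ) := by
      have := congrArg (fun n : ℕ => (n : ℤ)) h4
      simpa [Int.toNat_of_nonneg h12, Int.toNat_of_nonneg h13] using this
    have h15 : (a - a0) % (M' : ℤ) = (a2 - a0) % (M' : ℤ) := by
      have h16 : (M' : ℤ) ∣ (a2 - a0) - (a - a0) := by
        have e : (a2 - a0) - (a - a0) = -(a - a2) := by ring
        rw [e]
        exact (dvd_neg).2 h11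
      exact (Int.modEq_iff_dvd.2 h16)
    have h16 : a = a2 := by
      have e1 := Int.emod_add_mul_ediv (a - a0) M'
      have e2 := Int.emod_add_mul_ediv (a2 - a0) M'
      rw [h14, h15] at e1
      linarith
    subst h16
    have h17 : (b - b2) * (M' : ℤ) = 0 := by rw [h9]; ring
    have h18 : b - b2 = 0 := by
      rcases mul_eq_zero.1 h17 with h | h
      · exact h
      · omega
    ext
    · rfl
    · show b = b2
      linarith
  have hmaps : ∀ p ∈ P, F p ∈ S ×ˢ range g := by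
    rintro ⟨a, b⟩ h1
    obtain ⟨h5, h6, -⟩ := hP _ h1
    simp only at h5 h6
    rw [mem_product]
    refine ⟨mem_image_of_mem (fun p : ℤ × ℤ => p.2 * M' - p.1 * q') h1, ?_⟩
    rw [mem_range]
    have hM'z : (0 : ℤ) < M' := by exact_mod_cast hM'0
    have h12 : 0 ≤ (a - a0) / (M' : ℤ) := Int.ediv_nonneg (by linarith) hM'z.le
    show ((a - a0) / (M' : ℤ)).toNat < g
    have h13 : (a - a0) / (M' : ℤ) < g := by
      rw [Int.ediv_lt_iff_lt_mul hM'z]
      have : (M : ℤ) = g * M' := by exact_mod_cast hM'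
      linarith
    omega
  have hcard := card_le_card_of_injOn F hmaps hinj
  rw [card_product, card_range] at hcard
  have hgR : (0 : ℝ) < g := by exact_mod_cast hg0
  have hS : (S.card : ℝ) ≤ 2 * (H / g) + 1 := by
    refine card_abs_lt S (H / g) (by positivity) ?_
    intro h hh
    obtain ⟨p, hp, rfl⟩ := mem_image.1 hh
    obtain ⟨-, -, h7⟩ := hP p hp
    rw [lt_div_iff₀ hgR]
    refine lt_of_eq_of_lt ?_ h7
    rw [← abs_of_pos hgR, ← abs_mul]
    congr 1
    have e1 : (M : ℝ) = g * M' := by exact_mod_cast hM'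
    have e2 : (q : ℝ) = g * q' := by exact_mod_cast hq'
    push_cast
    rw [e1, e2]
    ring
  calc (P.card : ℝ) ≤ S.card * g := by exact_mod_cast hcard
    _ ≤ (2 * (H / g) + 1) * g := mul_le_mul_of_nonneg_right hS hgR.le
    _ = 2 * H + g := by field_simp

end Pool.Agent.W5h30.Sq
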