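import Mathlib

set_option autoImplicit false

namespace Pool.Agent.W5h30.Sq

open Finset

lemma min_le_tele (Y : ℝ) (hY : 0 < Y) (r : ℕ) (hr : 1 ≤ r) :
    min 1 (Y ^ 2 / (r : ℝ) ^ 2) ≤ 4 * Y ^ 2 * (1 / (Y + r - 1) - 1 / (Y + r)) := by
  have hr1 : (1 : ℝ) ≤ r := by exact_mod_cast hr
  have h1 : 0 < Y + r - 1 := by linarith
  have h2 : 0 < Y + r := by linarith
  have e : 4 * Y ^ 2 * (1 / (Y + r - 1) - 1 / (Y + r)) = 4 * Y ^ 2 / ((Y + r - 1) * (Y + r)) := by
    field_simp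
    ring
  rw [e]
  rcases le_total (r : ℝ) Y with h | h
  · refine le_trans (min_le_left _ _) ?_
    rw [le_div_iff₀ (by positivity)]
    nlinarith
  · refine le_trans (min_le_right _ _) ?_
    rw [div_le_div_iff₀ (by positivity) (by positivity)]
    have h3 : (Y + r - 1) * (Y + r) ≤ 4 * (r : ℝ) ^ 2 := by nlinarith
    have h4 : 0 ≤ Y ^ 2 := by positivity
    nlinarith

lemma sum_min_le (Y : ℝ) (hY : 0 < Y) (K : ℕ) :
    ∑ r ∈ Icc 1 K, min 1 (Y ^ 2 / (r : ℝ) ^ 2) ≤ 4 * Y := by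
  have h : ∑ r ∈ Icc 1 K, min 1 (Y ^ 2 / (r : ℝ) ^ 2) ≤ 4 * Y ^ 2 * (1 / Y - 1 / (Y + K)) := by
    induction K with
    | zero => simp
    | succ K ih =>
      rw [Finset.sum_Icc_succ_top (by omega)]
      have h1 := min_le_tele Y hY (K + 1) (by omega)
      push_cast at h1 ⊢
      have e : Y + (K + 1) - 1 = Y + (K : ℝ) := by ring
      rw [e] at h1
      nlinarith
  refine le_trans h ?_
  have h1 : 0 < Y + K := by positivity
  have h2 : 0 ≤ 1 / (Y + K) := by positivity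
  have h3 : 4 * Y ^ 2 * (1 / Y) = 4 * Y := by field_simp
  have h4 : 0 ≤ 4 * Y ^ 2 * (1 / (Y + K)) := by positivity
  nlinarith

/-- the main sum over gcds -/
lemma sum_gcd_le (M : ℕ) (hM : 0 < M) (X : ℝ) (hX : 0 < X) (K : ℕ) :
    ∑ q ∈ Icc 1 K, (Nat.gcd q M : ℝ) * min 1 (X / (q : ℝ) ^ 2) ≤
      4 * Real.sqrt X * (M.divisors.card : ℝ) := by
  have h1 : ∀ q ∈ Icc 1 K, (Nat.gcd q M : ℝ) * min 1 (X / (q : ℝ) ^ 2) ≤
      ∑ g ∈ M.divisors, if g ∣ q then (g : ℝ) * min 1 (X / (q : ℝ) ^ 2) else 0 := by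
    intro q hq
    have h2 : Nat.gcd q M ∈ M.divisors := Nat.mem_divisors.2 ⟨Nat.gcd_dvd_right _ _, hM.ne'⟩
    have h3 := Finset.single_le_sum (f := fun g : ℕ =>
      if g ∣ q then (g : ℝ) * min 1 (X / (q : ℝ) ^ 2) else 0) (fun g _ => by
        split_ifs
        · positivity
        · exact le_refl _) h2
    simp only [Nat.gcd_dvd_left, if_true] at h3
    exact h3
  refine le_trans (Finset.sum_le_sum h1) ?_
  rw [Finset.sum_comm]
  have h2 : ∀ g ∈ M.divisors, ∑ q ∈ Icc 1 K,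
      (if g ∣ q then (g : ℝ) * min 1 (X / (q : ℝ) ^ 2) else 0) ≤ 4 * Real.sqrt X := by
    intro g hg
    have hg0 : 0 < g := Nat.pos_of_mem_divisors hg
    have hgR : (0 : ℝ) < g := by exact_mod_cast hg0
    rw [← Finset.sum_filter]
    have h3 : ∑ q ∈ (Icc 1 K).filter (fun q => g ∣ q), (g : ℝ) * min 1 (X / (q : ℝ) ^ 2) ≤
        ∑ r ∈ Icc 1 K, (g : ℝ) * min 1 ((Real.sqrt X / g) ^ 2 / (r : ℝ) ^ 2) := by
      have h4 : ∑ q ∈ (Icc 1 K).filter (fun q => g ∣ q), (g : ℝ) * min 1 (X / (q : ℝ) ^ 2) =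
          ∑ r ∈ ((Icc 1 K).filter (fun q => g ∣ q)).image (fun q => q / g),
            (g : ℝ) * min 1 ((Real.sqrt X / g) ^ 2 / (r : ℝ) ^ 2) := by
        rw [Finset.sum_image]
        · refine Finset.sum_congr rfl fun q hq => ?_
          rw [mem_filter] at hq
          obtain ⟨r, hr⟩ := hq.2
          have hr' : q / g = r := by rw [hr]; exact Nat.mul_div_cancel_left r hg0
          rw [hr', hr]
          congr 2
          push_cast
          rw [div_pow, Real.sq_sqrt hX.le, mul_pow, div_div]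
        · intro q hq q' hq' h
          rw [Finset.mem_coe, mem_filter] at hq hq'
          simp only at h
          rw [← Nat.div_mul_cancel hq.2, ← Nat.div_mul_cancel hq'.2, h]
      rw [h4]
      refine Finset.sum_le_sum_of_subset_of_nonneg ?_ (fun r _ _ => by positivity)
      intro r hr
      obtain ⟨q, hq, rfl⟩ := mem_image.1 hr
      rw [mem_filter, mem_Icc] at hq
      rw [mem_Icc]
      refine ⟨?_, le_trans (Nat.div_le_self _ _) hq.1.2⟩
      exact Nat.div_pos (Nat.le_of_dvd (by omega) hq.2) hg0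
    refine le_trans h3 ?_
    rw [← Finset.mul_sum]
    have h5 := sum_min_le (Real.sqrt X / g) (by positivity) K
    calc (g : ℝ) * ∑ r ∈ Icc 1 K, min 1 ((Real.sqrt X / g) ^ 2 / (r : ℝ) ^ 2) ≤
        g * (4 * (Real.sqrt X / g)) := mul_le_mul_of_nonneg_left h5 hgR.le
      _ = 4 * Real.sqrt X := by field_simp
  refine le_trans (Finset.sum_le_sum h2) ?_
  rw [Finset.sum_const, nsmul_eq_mul]
  linarith

end Pool.Agent.W5h30.Sq
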