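import Pool.Agent.W5h30.Sq.Count
import Pool.Agent.W5h30.Sq.Sums

set_option autoImplicit false

namespace Pool.Agent.W5h30.Sq

open Finset MeasureTheory

/-- the points at distance `< r` of a fraction with denominator `q` -/
def Nb (q : ℕ) (r : ℝ) : Set ℝ := {x | ∃ b : ℤ, |x - b / q| < r}

lemma Nb_empty (q : ℕ) (r : ℝ) (hr : r ≤ 0) : Nb q r = ∅ := by
  ext x
  simp only [Nb, Set.mem_ofPred_eq, Set.mem_empty_iff_false, iff_false, not_exists, not_lt]
  intro b
  exact le_trans hr (abs_nonneg _)

lemma Nb_open (q : ℕ) (r : ℝ) : IsOpen (Nb q r) := by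
  have : Nb q r = ⋃ b : ℤ, {x : ℝ | |x - b / q| < r} := by
    ext x; simp [Nb]
  rw [this]
  refine isOpen_iUnion fun b => ?_
  exact isOpen_lt (by fun_prop) continuous_const

/-- the interval of radius `δ` around `a / M` -/
def J (M : ℕ) (δ : ℝ) (a : ℤ) : Set ℝ := Set.Icc ((a : ℝ) / M - δ) ((a : ℝ) / M + δ)

/-- upper bound for the total measure of the intersections with the neighbourhoods of the fractions
with denominator `q` -/
lemma sum_measure_le (M q : ℕ) (hM : 0 < M) (hq : 0 < q) (a0 : ℤ) (δ r : ℝ) (hδ : 0 ≤ δ)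
    (hr : 0 ≤ r) (A : Finset ℤ) (hA : ∀ a ∈ A, a0 ≤ a ∧ a < a0 + M) :
    ∑ a ∈ A, volume (J M δ a ∩ Nb q r) ≤
      ENNReal.ofReal ((2 * ((r + δ) * q * M) + Nat.gcd q M) * (2 * min δ r)) := by
  classical
  have hMR : (0 : ℝ) < M := by exact_mod_cast hM
  have hqR : (0 : ℝ) < q := by exact_mod_cast hq
  -- the numerators near `a / M`
  let B : ℤ → Finset ℤ := fun a => (Finset.Icc ⌊(q : ℝ) * (a / M - (r + δ))⌋
    ⌈(q : ℝ) * (a / M + (r + δ))⌉).filter fun b : ℤ => |(b : ℝ) / q - a / M| < r + δ
  have hB : ∀ a b : ℤ, |(b : ℝ) / q - a / M| < r + δ → b ∈ B a := by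
    intro a b h
    rw [Finset.mem_filter, Finset.mem_Icc]
    refine ⟨⟨?_, ?_⟩, h⟩
    · have h1 := (abs_lt.1 h).1
      have h2 : (q : ℝ) * (a / M - (r + δ)) ≤ b := by
        have : (b : ℝ) = q * (b / q) := by field_simp
        rw [this]
        exact mul_le_mul_of_nonneg_left (by linarith) hqR.le
      exact Int.cast_le.1 (le_trans (Int.floor_le _) h2)
    · have h1 := (abs_lt.1 h).2
      have h2 : (b : ℝ) ≤ (q : ℝ) * (a / M + (r + δ)) := by
        have : (b : ℝ) = q * (b / q) := by field_simp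
        rw [this]
        exact mul_le_mul_of_nonneg_left (by linarith) hqR.le
      exact Int.cast_le.1 (le_trans h2 (Int.le_ceil _))
  -- bound for one `a`
  have h1 : ∀ a : ℤ, volume (J M δ a ∩ Nb q r) ≤ (B a).card * ENNReal.ofReal (2 * min δ r) := by
    intro a
    have h2 : J M δ a ∩ Nb q r ⊆ ⋃ b ∈ B a, (J M δ a ∩ Metric.ball ((b : ℝ) / q) r) := by
      rintro x ⟨hx, b, hb⟩
      rw [Set.mem_iUnion₂]
      refine ⟨b, hB a b ?_, hx, ?_⟩
      · have h3 : |x - a / M| ≤ δ := by
          rw [abs_le]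
          obtain ⟨h4, h5⟩ := hx
          constructor <;> linarith
        have h4 : |(b : ℝ) / q - a / M| ≤ |x - b / q| + |x - a / M| := by
          have e : (b : ℝ) / q - a / M = (x - a / M) - (x - b / q) := by ring
          rw [e]
          exact le_trans (abs_sub _ _) (by rw [add_comm])
        linarith
      · rw [Metric.mem_ball, Real.dist_eq]
        exact hb
    refine le_trans (measure_mono h2) ?_
    refine le_trans (measure_biUnion_finset_le _ _) ?_
    refine le_trans (Finset.sum_le_card_nsmul _ _ (ENNReal.ofReal (2 * min δ r)) ?_) ?_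
    · intro b _
      rcases le_total δ r with h | h
      · rw [min_eq_left h]
        refine le_trans (measure_mono Set.inter_subset_left) ?_
        rw [J, Real.volume_Icc]
        refine ENNReal.ofReal_le_ofReal ?_
        linarith
      · rw [min_eq_right h]
        refine le_trans (measure_mono Set.inter_subset_right) ?_
        rw [Real.volume_ball]
    · rw [nsmul_eq_mul]
  -- counting the pairs
  let P : Finset (ℤ × ℤ) := (A.sigma B).image fun s => (s.1, s.2)
  have hPcard : P.card = ∑ a ∈ A, (B a).card := by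
    rw [Finset.card_image_of_injective _ (by
      rintro ⟨a, b⟩ ⟨a2, b2⟩ h
      simp only [Prod.mk.injEq] at h
      obtain ⟨rfl, rfl⟩ := h
      rfl), Finset.card_sigma]
  have h2 : (P.card : ℝ) ≤ 2 * ((r + δ) * q * M) + Nat.gcd q M := by
    refine card_pairs M q hM a0 ((r + δ) * q * M) (by positivity) P ?_
    intro p hp
    obtain ⟨⟨a, b⟩, hs, rfl⟩ := Finset.mem_image.1 hp
    rw [Finset.mem_sigma] at hs
    obtain ⟨h3, h4⟩ := hs
    simp only at h3 h4 ⊢
    refine ⟨(hA a h3).1, (hA a h3).2, ?_⟩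
    rw [Finset.mem_filter] at h4
    have h5 := h4.2
    have e : ((b * (M : ℤ) - a * (q : ℤ) : ℤ) : ℝ) = (b / q - a / M) * (q * M) := by
      push_cast
      field_simp
    rw [e, abs_mul, abs_of_pos (show (0 : ℝ) < q * M by positivity)]
    calc |(b : ℝ) / q - a / M| * (q * M) < (r + δ) * (q * M) :=
          mul_lt_mul_of_pos_right h5 (by positivity)
      _ = (r + δ) * q * M := by ring
  calc ∑ a ∈ A, volume (J M δ a ∩ Nb q r) ≤
        ∑ a ∈ A, ((B a).card : ENNReal) * ENNReal.ofReal (2 * min δ r) :=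
        Finset.sum_le_sum fun a _ => h1 a
    _ = (P.card : ENNReal) * ENNReal.ofReal (2 * min δ r) := by
        rw [← Finset.sum_mul, hPcard]
        push_cast
        rfl
    _ = ENNReal.ofReal ((P.card : ℝ) * (2 * min δ r)) := by
        rw [ENNReal.ofReal_mul (p := (P.card : ℝ)) (by positivity), ENNReal.ofReal_natCast]
    _ ≤ _ := by
        refine ENNReal.ofReal_le_ofReal ?_
        exact mul_le_mul_of_nonneg_right h2 (by positivity)

end Pool.Agent.W5h30.Sq
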