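import Pool.Agent.W5h30.Sq.Constr

set_option autoImplicit false

namespace Pool.Agent.W5h30.Sq

open Finset Filter Topology

/-- the number of binary digits -/
def len (q : ℕ) : ℕ := Nat.log 2 q + 1

/-- `q` has a large square divisor -/
def Bad (q : ℕ) : Prop := ∃ d : ℕ, d ^ 2 ∣ q ∧ len q ^ 2 ≤ d

open Classical in
/-- the radii -/
noncomputable def rad (q : ℕ) : ℝ :=
  if Bad q then 1 / (q : ℝ) ^ 2 else 1 / ((q : ℝ) ^ 2 * (len q : ℝ) ^ 2)

lemma len_pos (q : ℕ) : (1 : ℝ) ≤ len q := by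
  unfold len
  push_cast
  have : (0 : ℝ) ≤ Nat.log 2 q := Nat.cast_nonneg _
  linarith

lemma rad_nonneg (q : ℕ) : 0 ≤ rad q := by
  unfold rad
  split_ifs <;> positivity

lemma rad_le (q : ℕ) : rad q ≤ 1 / (q : ℝ) ^ 2 := by
  unfold rad
  split_ifs
  · exact le_rfl
  · rcases Nat.eq_zero_or_pos q with h | h
    · subst h; simp
    · have h1 : (0 : ℝ) < q := by exact_mod_cast h
      have h2 := len_pos q
      have h3 : (1 : ℝ) ≤ (len q : ℝ) ^ 2 := one_le_pow₀ h2
      apply one_div_le_one_div_of_le (by positivity)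
      exact le_mul_of_one_le_right (by positivity) h3

lemma le_rad (q : ℕ) (hq : 0 < q) : 1 / ((q : ℝ) ^ 2 * (len q : ℝ) ^ 2) ≤ rad q := by
  unfold rad
  split_ifs
  · have h1 : (0 : ℝ) < q := by exact_mod_cast hq
    have h2 := len_pos q
    have h3 : (1 : ℝ) ≤ (len q : ℝ) ^ 2 := one_le_pow₀ h2
    apply one_div_le_one_div_of_le (by positivity)
    exact le_mul_of_one_le_right (by positivity) h3
  · exact le_rfl

lemma summable_len : Summable fun q : ℕ => 1 / ((q : ℝ) * (len q : ℝ) ^ 2) := by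
  rw [← summable_condensed_iff_of_nonneg]
  · have h1 : (fun k : ℕ => (2 : ℝ) ^ k * (1 / (((2 ^ k : ℕ) : ℝ) * (len (2 ^ k) : ℝ) ^ 2))) =
        fun k : ℕ => 1 / ((k + 1 : ℕ) : ℝ) ^ 2 := by
      funext k
      unfold len
      rw [Nat.log_pow (by norm_num)]
      push_cast
      field_simp
    rw [h1]
    exact (summable_nat_add_iff (f := fun k : ℕ => 1 / (k : ℝ) ^ 2) 1).2
      (Real.summable_one_div_nat_pow.2 (by norm_num))
  · intro n
    positivity
  · intro m n hm hmn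
    have h1 : (0 : ℝ) < m := by exact_mod_cast hm
    have h2 := len_pos m
    have h3 : (m : ℝ) ≤ n := by exact_mod_cast hmn
    have h4 : (len m : ℝ) ≤ len n := by
      unfold len
      exact_mod_cast Nat.succ_le_succ (Nat.log_mono_right hmn)
    have h5 : (0 : ℝ) < n := lt_of_lt_of_le h1 h3
    apply one_div_le_one_div_of_le (by positivity)
    gcongr

lemma sum_inv_le (n : ℕ) : ∑ r ∈ Icc (1 : ℕ) (2 ^ n), 1 / (r : ℝ) ≤ 1 + n := by
  have h1 := harmonic_le_one_add_log (2 ^ n)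
  rw [harmonic_eq_sum_Icc] at h1
  push_cast at h1
  have h2 : Real.log (2 ^ n) ≤ n := by
    rw [Real.log_pow]
    have : Real.log 2 ≤ 1 := by
      have := Real.log_two_lt_d9
      linarith
    have h3 : (0 : ℝ) ≤ n := Nat.cast_nonneg _
    nlinarith
  simp only [one_div]
  linarith

open Classical in
lemma summable_bad : Summable fun q : ℕ => if Bad q then 1 / (q : ℝ) else 0 := by
  have hs : Summable fun d : ℕ => 2 / (d : ℝ) ^ ((3 : ℝ) / 2) := by
    have := (Real.summable_one_div_nat_rpow (p := 3 / 2)).2 (by norm_num)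
    refine (this.mul_left 2).congr fun d => ?_
    ring
  refine summable_of_sum_le (c := ∑' d : ℕ, 2 / (d : ℝ) ^ ((3 : ℝ) / 2)) (fun q => by
    positivity) fun u => ?_
  obtain ⟨K, hK⟩ : ∃ K : ℕ, ∀ q ∈ u, q ≤ K := ⟨u.sup id, fun q hq => Finset.le_sup (f := id) hq⟩
  have h1 : ∀ q ∈ u, (if Bad q then 1 / (q : ℝ) else 0) ≤
      ∑ d ∈ Icc 1 K, if (d ^ 2 ∣ q ∧ len q ^ 2 ≤ d ∧ 0 < q) then 1 / (q : ℝ) else 0 := by
    intro q hq
    split_ifs with hb
    · rcases Nat.eq_zero_or_pos q with h0 | h0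
      · subst h0
        simp
      · obtain ⟨d, hd1, hd2⟩ := hb
        have hdK : d ∈ Icc 1 K := by
          rw [mem_Icc]
          have h2 : 0 < d := by
            rcases Nat.eq_zero_or_pos d with h | h
            · subst h
              simp at hd1
              omega
            · exact h
          refine ⟨h2, le_trans ?_ (hK q hq)⟩
          exact le_trans (by nlinarith) (Nat.le_of_dvd h0 hd1)
        have := Finset.single_le_sum (f := fun d : ℕ =>
          if (d ^ 2 ∣ q ∧ len q ^ 2 ≤ d ∧ 0 < q) then 1 / (q : ℝ) else 0)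
          (fun d _ => by positivity) hdK
        rw [if_pos ⟨hd1, hd2, h0⟩] at this
        exact this
    · exact Finset.sum_nonneg fun d _ => by positivity
  refine le_trans (Finset.sum_le_sum h1) ?_
  rw [Finset.sum_comm]
  refine le_trans (Finset.sum_le_sum (g := fun d : ℕ => 2 / (d : ℝ) ^ ((3 : ℝ) / 2)) ?_)
    (hs.sum_le_tsum _ (fun d _ => by positivity))
  intro d hd
  rw [mem_Icc] at hd
  have hd0 : 0 < d := hd.1
  have hdR : (0 : ℝ) < d := by exact_mod_cast hd0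
  rw [← Finset.sum_filter]
  have h2 : ∑ q ∈ u.filter (fun q => d ^ 2 ∣ q ∧ len q ^ 2 ≤ d ∧ 0 < q), 1 / (q : ℝ) =
      ∑ r ∈ (u.filter (fun q => d ^ 2 ∣ q ∧ len q ^ 2 ≤ d ∧ 0 < q)).image (fun q : ℕ => q / d ^ 2),
        1 / (d : ℝ) ^ 2 * (1 / ((r : ℕ) : ℝ)) := by
    rw [Finset.sum_image]
    · refine Finset.sum_congr rfl fun q hq => ?_
      rw [mem_filter] at hq
      obtain ⟨-, ⟨r, hr⟩, -, hq0⟩ := hq
      rw [hr, Nat.mul_div_cancel_left _ (by positivity)]
      push_cast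
      rw [one_div_mul_one_div]
    · intro q hq q' hq' h
      rw [Finset.mem_coe, mem_filter] at hq hq'
      simp only at h
      rw [← Nat.div_mul_cancel hq.2.1, ← Nat.div_mul_cancel hq'.2.1, h]
  rw [h2]
  have h3 : (u.filter (fun q => d ^ 2 ∣ q ∧ len q ^ 2 ≤ d ∧ 0 < q)).image (fun q => q / d ^ 2) ⊆
      Icc 1 (2 ^ Nat.sqrt d) := by
    intro r hr
    obtain ⟨q, hq, rfl⟩ := mem_image.1 hr
    rw [mem_filter] at hq
    obtain ⟨-, h4, h5, h6⟩ := hq
    rw [mem_Icc]
    refine ⟨Nat.div_pos (Nat.le_of_dvd h6 h4) (by positivity), ?_⟩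
    have h7 : len q ≤ Nat.sqrt d := Nat.le_sqrt'.2 h5
    have h8 : q < 2 ^ len q := Nat.lt_pow_succ_log_self (by norm_num) q
    exact le_trans (Nat.div_le_self _ _) (le_trans h8.le (Nat.pow_le_pow_right (by norm_num) h7))
  refine le_trans (Finset.sum_le_sum_of_subset_of_nonneg h3 (fun r _ _ => by positivity)) ?_
  rw [← Finset.mul_sum]
  have h4 := sum_inv_le (Nat.sqrt d)
  have h5 : (Nat.sqrt d : ℝ) ≤ Real.sqrt d := Real.nat_sqrt_le_real_sqrt
  have h6 : 1 ≤ Real.sqrt d := by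
    rw [Real.one_le_sqrt]
    exact_mod_cast hd0
  have h7 : (d : ℝ) ^ ((3 : ℝ) / 2) * Real.sqrt d = (d : ℝ) ^ 2 := by
    rw [Real.sqrt_eq_rpow, ← Real.rpow_add hdR]
    norm_num
  calc 1 / (d : ℝ) ^ 2 * ∑ r ∈ Icc (1 : ℕ) (2 ^ Nat.sqrt d), 1 / (r : ℝ) ≤
        1 / (d : ℝ) ^ 2 * (2 * Real.sqrt d) := by
        refine mul_le_mul_of_nonneg_left ?_ (by positivity)
        linarith
    _ = 2 / (d : ℝ) ^ ((3 : ℝ) / 2) := by
        rw [← h7]
        have h8 : 0 < (d : ℝ) ^ ((3 : ℝ) / 2) := Real.rpow_pos_of_pos hdR _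
        have h9 : 0 < Real.sqrt d := by linarith
        field_simp

lemma rad_good : Rad rad := by
  refine ⟨rad_nonneg, rad_le, ?_⟩
  classical
  refine Summable.of_nonneg_of_le (fun q => mul_nonneg (Nat.cast_nonneg _) (rad_nonneg q)) ?_
    (summable_bad.add summable_len)
  intro q
  rcases Nat.eq_zero_or_pos q with h | h
  · subst h
    simp
  · have h1 : (0 : ℝ) < q := by exact_mod_cast h
    have h2 := len_pos q
    unfold rad
    split_ifs
    · have : (q : ℝ) * (1 / (q : ℝ) ^ 2) = 1 / q := by field_simp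
      rw [this]
      have : 0 ≤ 1 / ((q : ℝ) * (len q : ℝ) ^ 2) := by positivity
      linarith
    · have : (q : ℝ) * (1 / ((q : ℝ) ^ 2 * (len q : ℝ) ^ 2)) = 1 / (q * (len q : ℝ) ^ 2) := by
        field_simp
      rw [this]
      linarith

/-- `len q` grows more slowly than every power of `q` -/
lemma len_le (ε : ℝ) (hε : 0 < ε) : ∃ C : ℝ, 0 < C ∧ ∀ q : ℕ, 0 < q → (len q : ℝ) ≤ C * (q : ℝ) ^ ε := by
  refine ⟨1 + 1 / (ε * Real.log 2), by
    have := Real.log_pos (show (1 : ℝ) < 2 by norm_num)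
    positivity, fun q hq => ?_⟩
  have hl2 := Real.log_pos (show (1 : ℝ) < 2 by norm_num)
  have hqR : (1 : ℝ) ≤ q := by exact_mod_cast hq
  have h1 : (Nat.log 2 q : ℝ) * Real.log 2 ≤ Real.log q := by
    rw [← Real.log_pow]
    apply Real.log_le_log (by positivity)
    exact_mod_cast Nat.pow_log_le_self 2 hq.ne'
  have h2 := Real.log_natCast_le_rpow_div q hε
  have h3 : (Nat.log 2 q : ℝ) ≤ (q : ℝ) ^ ε / ε / Real.log 2 := by
    rw [le_div_iff₀ hl2]
    linarith
  have h4 : (1 : ℝ) ≤ (q : ℝ) ^ ε := Real.one_le_rpow hqR hε.le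
  unfold len
  push_cast
  have h5 : (q : ℝ) ^ ε / ε / Real.log 2 = 1 / (ε * Real.log 2) * (q : ℝ) ^ ε := by
    field_simp
  rw [h5] at h3
  linarith

end Pool.Agent.W5h30.Sq
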