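import Pool.Agent.W5h30.Sq.Meas

set_option autoImplicit false

namespace Pool.Agent.W5h30.Sq

open Finset MeasureTheory Filter Topology

/-- admissible radii -/
structure Rad (ρ : ℕ → ℝ) : Prop where
  nonneg : ∀ q, 0 ≤ ρ q
  le : ∀ q, ρ q ≤ 1 / (q : ℝ) ^ 2
  summ : Summable fun q : ℕ => (q : ℝ) * ρ q

/-- the excluded set -/
def Ex (ρ : ℕ → ℝ) (q0 : ℕ) (c : ℝ) : Set ℝ := ⋃ q : ℕ, ⋃ _ : q0 ≤ q, Nb q (c * ρ q)

lemma Ex_open (ρ : ℕ → ℝ) (q0 : ℕ) (c : ℝ) : IsOpen (Ex ρ q0 c) :=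
  isOpen_iUnion fun q => isOpen_iUnion fun _ => Nb_open q _

/-- one term of the big sum -/
lemma term_le (q M : ℕ) (δ r ρ g : ℝ) (hδ : 0 < δ) (hr : 0 ≤ r) (hrρ : r ≤ 2 * ρ)
    (hρ : ρ ≤ 1 / (q : ℝ) ^ 2) (hg : 0 ≤ g) (hq : 0 < q) :
    (2 * ((r + δ) * q * M) + g) * (2 * min δ r) ≤
      2 * δ * (8 * M * (q * ρ) + g * min 1 ((2 / δ) / (q : ℝ) ^ 2)) := by
  have hqR : (0 : ℝ) < q := by exact_mod_cast hq
  have hM0 : (0 : ℝ) ≤ M := by positivity
  have h1 : (r + δ) * min δ r ≤ 2 * (r * δ) := by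
    rcases le_total δ r with h | h
    · rw [min_eq_left h]; nlinarith
    · rw [min_eq_right h]; nlinarith
  have h2 : min δ r ≤ δ * min 1 ((2 / δ) / (q : ℝ) ^ 2) := by
    rw [mul_min_of_nonneg _ _ hδ.le, mul_one]
    refine min_le_min le_rfl ?_
    have e : δ * ((2 / δ) / (q : ℝ) ^ 2) = 2 * (1 / (q : ℝ) ^ 2) := by
      field_simp
    rw [e]
    linarith
  have h3 : (2 * ((r + δ) * q * M) + g) * (2 * min δ r) =
      4 * (q * M) * ((r + δ) * min δ r) + 2 * g * min δ r := by ring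
  rw [h3]
  have h4 : 4 * ((q : ℝ) * M) * ((r + δ) * min δ r) ≤ 4 * (q * M) * (2 * (r * δ)) :=
    mul_le_mul_of_nonneg_left h1 (by positivity)
  have h5 : 4 * ((q : ℝ) * M) * (2 * (r * δ)) ≤ 4 * (q * M) * (2 * (2 * ρ * δ)) :=
    mul_le_mul_of_nonneg_left (by nlinarith) (by positivity)
  have h6 : 2 * g * min δ r ≤ 2 * g * (δ * min 1 ((2 / δ) / (q : ℝ) ^ 2)) :=
    mul_le_mul_of_nonneg_left h2 (by positivity)
  nlinarith

lemma stage (ρ : ℕ → ℝ) (hρ : Rad ρ) (q0 : ℕ) (hq0 : 1 ≤ q0) (τ : ℝ) (hτ1 : 2 < τ) (hτ : τ < 4)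
    (c c' : ℝ) (hc : 1 ≤ c) (hcc : c < c') (hc2 : c' ≤ 2) (u v : ℝ) (huv : v ≤ u + 1 / 2)
    (hpos : volume (Set.Icc u v \ Ex ρ q0 c') ≠ 0) (B : ℕ) :
    ∃ (m : ℕ) (a : ℤ), B ≤ m ∧ m.Prime ∧ J (m ^ 2) ((m : ℝ) ^ (-τ)) a ⊆ Set.Icc u v ∧
      volume (J (m ^ 2) ((m : ℝ) ^ (-τ)) a \ Ex ρ q0 c) ≠ 0 := by
  classical
  -- the measure of the good set
  set W := volume (Set.Icc u v \ Ex ρ q0 c') with hW
  have hWfin : W ≠ ⊤ := by
    refine ne_top_of_le_ne_top ?_ (measure_mono Set.sdiff_subset)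
    rw [Real.volume_Icc]
    exact ENNReal.ofReal_ne_top
  set γ := W.toReal with hγ
  have hγ0 : 0 < γ := ENNReal.toReal_pos hpos hWfin
  have hWγ : W = ENNReal.ofReal γ := (ENNReal.ofReal_toReal hWfin).symm
  -- the tail of the series
  obtain ⟨Q, hQq0, hQ⟩ : ∃ Q : ℕ, q0 ≤ Q ∧ ∑' k : ℕ, (((k + (Q + 1) : ℕ) : ℝ) * ρ (k + (Q + 1))) <
      γ / 64 := by
    have h1 := tendsto_sum_nat_add fun q : ℕ => (q : ℝ) * ρ q
    have h2 := (h1.comp (tendsto_add_atTop_nat 1)).eventually (gt_mem_nhds (show (0 : ℝ) < γ / 64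
      by positivity))
    obtain ⟨Q, h3, h4⟩ := (h2.and (eventually_ge_atTop q0)).exists
    exact ⟨Q, h4, h3⟩
  -- the choice of `m`
  have t1 : Tendsto (fun m : ℕ => 1 / ((m ^ 2 : ℕ) : ℝ) + (m : ℝ) ^ (-τ)) atTop (𝓝 0) := by
    have h1 : Tendsto (fun m : ℕ => 1 / ((m ^ 2 : ℕ) : ℝ)) atTop (𝓝 0) := by
      have := (tendsto_one_div_atTop_nhds_zero_nat (𝕜 := ℝ)).comp
        (tendsto_pow_atTop (α := ℕ) (n := 2) (by norm_num))
      exact this
    have h2 : Tendsto (fun m : ℕ => (m : ℝ) ^ (-τ)) atTop (𝓝 0) :=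
      (tendsto_rpow_neg_atTop (by linarith)).comp tendsto_natCast_atTop_atTop
    simpa using h1.add h2
  have t2 : Tendsto (fun m : ℕ => (m : ℝ) ^ (-(2 - τ / 2))) atTop (𝓝 0) :=
    (tendsto_rpow_neg_atTop (by linarith)).comp tendsto_natCast_atTop_atTop
  have e1 : ∀ᶠ m : ℕ in atTop, 1 / ((m ^ 2 : ℕ) : ℝ) + (m : ℝ) ^ (-τ) < γ / 4 :=
    t1.eventually (gt_mem_nhds (by positivity))
  have e2 : ∀ᶠ m : ℕ in atTop, ∀ q ∈ range (Q + 1), 0 < ρ q →
      1 / ((m ^ 2 : ℕ) : ℝ) + (m : ℝ) ^ (-τ) < (c' - c) * ρ q := by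
    rw [Filter.eventually_all_finset]
    intro q _
    by_cases h : 0 < ρ q
    · have : 0 < (c' - c) * ρ q := mul_pos (by linarith) h
      exact (t1.eventually (gt_mem_nhds this)).mono fun m hm _ => hm
    · exact Filter.Eventually.of_forall fun m h' => absurd h' h
  have e3 : ∀ᶠ m : ℕ in atTop, (m : ℝ) ^ (-(2 - τ / 2)) < γ / 128 :=
    t2.eventually (gt_mem_nhds (by positivity))
  obtain ⟨m0, hm0⟩ := eventually_atTop.1 (e1.and (e2.and e3))
  obtain ⟨m, hmge, hmp⟩ := Nat.exists_infinite_primes (max m0 (max B 2))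
  obtain ⟨hm1, hm2, hm3⟩ := hm0 m (le_trans (le_max_left _ _) hmge)
  have hmB : B ≤ m := le_trans (le_trans (le_max_left _ _) (le_max_right _ _)) hmge
  have hmpos : 0 < m := hmp.pos
  have hmR : (0 : ℝ) < m := by exact_mod_cast hmpos
  obtain ⟨M, hM⟩ : ∃ M : ℕ, M = m ^ 2 := ⟨_, rfl⟩
  rw [← hM] at hm1
  simp only [← hM] at hm2
  have hMpos : 0 < M := by rw [hM]; positivity
  have hMR : (0 : ℝ) < (M : ℝ) := by exact_mod_cast hMpos
  set δ := (m : ℝ) ^ (-τ) with hδ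
  have hδ0 : 0 < δ := Real.rpow_pos_of_pos hmR _
  set η := γ / 4 with hη
  have hM1 : 0 < 1 / (M : ℝ) := by positivity
  have hM2 : 1 / (2 * (M : ℝ)) = 1 / (M : ℝ) / 2 := by rw [div_div, mul_comm]
  have hη0 : 0 < η := by positivity
  -- the good points
  set G := Set.Icc (u + η) (v - η) \ Ex ρ q0 c' with hG
  have hGvol : ENNReal.ofReal (γ / 2) ≤ volume G := by
    have h1 : Set.Icc u v \ Ex ρ q0 c' ⊆ G ∪ (Set.Icc u (u + η) ∪ Set.Icc (v - η) v) := by
      rintro x ⟨⟨h2, h3⟩, h4⟩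
      by_cases h5 : u + η ≤ x
      · by_cases h6 : x ≤ v - η
        · exact Or.inl ⟨⟨h5, h6⟩, h4⟩
        · exact Or.inr (Or.inr ⟨by linarith, h3⟩)
      · exact Or.inr (Or.inl ⟨h2, by linarith⟩)
    have h2 : W ≤ volume G + (ENNReal.ofReal η + ENNReal.ofReal η) := by
      refine le_trans (measure_mono h1) ?_
      refine le_trans (measure_union_le _ _) ?_
      gcongr
      refine le_trans (measure_union_le _ _) ?_
      rw [Real.volume_Icc, Real.volume_Icc]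
      gcongr <;> linarith
    rw [hWγ, ← ENNReal.ofReal_add (by positivity) (by positivity)] at h2
    have h3 : ENNReal.ofReal γ = ENNReal.ofReal (γ / 2) + ENNReal.ofReal (η + η) := by
      rw [← ENNReal.ofReal_add (by positivity) (by positivity)]
      congr 1
      rw [hη]; ring
    rw [h3] at h2
    exact (ENNReal.add_le_add_iff_right ENNReal.ofReal_ne_top).1 h2
  -- the indices
  let A : Finset ℤ := (Finset.Icc (⌊(M : ℝ) * u⌋ - 1) (⌈(M : ℝ) * v⌉ + 1)).filter fun a : ℤ =>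
    ∃ x ∈ G, |x - a / M| ≤ 1 / (2 * M)
  have hAmem : ∀ a ∈ A, ∃ x ∈ G, |x - a / M| ≤ 1 / (2 * (M : ℝ)) := fun a ha =>
    (Finset.mem_filter.1 ha).2
  have hcover : G ⊆ ⋃ a ∈ A, Set.Icc ((a : ℝ) / M - 1 / (2 * M)) (a / M + 1 / (2 * M)) := by
    intro x hx
    have h1 := abs_sub_round ((M : ℝ) * x)
    have h2 : |x - (round ((M : ℝ) * x) : ℝ) / M| ≤ 1 / (2 * M) := by
      have e : x - (round ((M : ℝ) * x) : ℝ) / M = ((M : ℝ) * x - round ((M : ℝ) * x)) / M := by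
        field_simp
      rw [e, abs_div, abs_of_pos hMR, div_le_div_iff₀ hMR (by positivity)]
      nlinarith
    rw [Set.mem_iUnion₂]
    refine ⟨round ((M : ℝ) * x), ?_, ?_⟩
    · rw [Finset.mem_filter, Finset.mem_Icc]
      refine ⟨⟨?_, ?_⟩, x, hx, h2⟩
      · have h3 : (M : ℝ) * u ≤ M * x := mul_le_mul_of_nonneg_left (by
          have := hx.1.1; linarith) hMR.le
        have h4 := Int.floor_le ((M : ℝ) * u)
        have h5 := (abs_le.1 h1).2
        have h6 : ((⌊(M : ℝ) * u⌋ : ℝ)) - 1 ≤ round ((M : ℝ) * x) := by linarith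
        exact_mod_cast h6
      · have h3 : (M : ℝ) * x ≤ M * v := mul_le_mul_of_nonneg_left (by
          have := hx.1.2; linarith) hMR.le
        have h4 := Int.le_ceil ((M : ℝ) * v)
        have h5 := (abs_le.1 h1).1
        have h6 : (round ((M : ℝ) * x) : ℝ) ≤ (⌈(M : ℝ) * v⌉ : ℝ) + 1 := by linarith
        exact_mod_cast h6
    · rw [abs_le] at h2
      constructor <;> linarith [h2.1, h2.2]
  have hAcard : γ / 2 * M ≤ (A.card : ℝ) := by
    have h1 : volume G ≤ A.card * ENNReal.ofReal (1 / M) := by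
      refine le_trans (measure_mono hcover) ?_
      refine le_trans (measure_biUnion_finset_le _ _) ?_
      refine le_trans (Finset.sum_le_card_nsmul _ _ (ENNReal.ofReal (1 / M)) ?_) ?_
      · intro a _
        rw [Real.volume_Icc]
        refine ENNReal.ofReal_le_ofReal ?_
        linarith
      · rw [nsmul_eq_mul]
    have h2 := le_trans hGvol h1
    have h3 : (A.card : ENNReal) * ENNReal.ofReal (1 / M) = ENNReal.ofReal (A.card * (1 / M)) := by
      rw [ENNReal.ofReal_mul (p := (A.card : ℝ)) (Nat.cast_nonneg _), ENNReal.ofReal_natCast]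
    rw [h3] at h2
    have h4 := (ENNReal.ofReal_le_ofReal_iff (mul_nonneg (Nat.cast_nonneg _) hM1.le)).1 h2
    rw [mul_one_div, le_div_iff₀ hMR] at h4
    exact h4
  -- the intervals
  have hJ : ∀ a ∈ A, J M δ a ⊆ Set.Icc u v := by
    intro a ha y hy
    obtain ⟨x, hx, hxa⟩ := hAmem a ha
    rw [abs_le] at hxa
    have h1 := hx.1.1
    have h2 := hx.1.2
    have h3 := hy.1
    have h4 := hy.2
    constructor <;> linarith
  have hJQ : ∀ a ∈ A, ∀ q, q0 ≤ q → q ≤ Q → J M δ a ∩ Nb q (c * ρ q) = ∅ := by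
    intro a ha q hq1 hq2
    by_cases h0 : 0 < ρ q
    · ext y
      simp only [Set.mem_inter_iff, Set.mem_empty_iff_false, iff_false, not_and]
      rintro hy ⟨b, hb⟩
      obtain ⟨x, hx, hxa⟩ := hAmem a ha
      apply hx.2
      simp only [Ex, Set.mem_iUnion]
      refine ⟨q, hq1, b, ?_⟩
      have h1 := hm2 q (Finset.mem_range.2 (by omega)) h0
      have h2 : |x - b / q| ≤ |x - a / M| + |y - a / M| + |y - b / q| := by
        have e : x - b / q = (x - a / M) - (y - a / M) + (y - b / q) := by ring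
        rw [e]
        refine le_trans (abs_add_le _ _) ?_
        gcongr
        exact abs_sub _ _
      have h3 : |y - a / M| ≤ δ := by
        rw [abs_le]
        have := hy.1
        have := hy.2
        constructor <;> linarith
      nlinarith
    · rw [Nb_empty q (c * ρ q) (by nlinarith [hρ.nonneg q]), Set.inter_empty]
  -- distinctness
  have hArange : ∀ a ∈ A, ⌈(M : ℝ) * u⌉ ≤ a ∧ a < ⌈(M : ℝ) * u⌉ + (M : ℤ) := by
    intro a ha
    have h1 : (a : ℝ) / M ∈ Set.Icc u v := hJ a ha ⟨by linarith, by linarith⟩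
    have h2 : (M : ℝ) * u ≤ a := by
      have := h1.1
      rw [le_div_iff₀ hMR] at this
      linarith
    have h3 : (a : ℝ) ≤ M * v := by
      have := h1.2
      rw [div_le_iff₀ hMR] at this
      linarith
    refine ⟨Int.ceil_le.2 h2, ?_⟩
    have h4 := Int.le_ceil ((M : ℝ) * u)
    have h5 : (a : ℝ) < (⌈(M : ℝ) * u⌉ : ℝ) + (M : ℝ) := by nlinarith
    exact_mod_cast h5
  -- conclusion
  by_contra hcon
  push Not at hcon
  have hzero : ∀ a ∈ A, volume (J M δ a \ Ex ρ q0 c) = 0 := fun a ha => by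
    have := hcon m a hmB hmp (by rw [← hM]; exact hJ a ha)
    rwa [← hM] at this
  have hle : ∀ a ∈ A, ENNReal.ofReal (2 * δ) ≤
      ∑' k : ℕ, volume (J M δ a ∩ Nb (k + (Q + 1)) (c * ρ (k + (Q + 1)))) := by
    intro a ha
    have h1 : volume (J M δ a) = volume (J M δ a ∩ Ex ρ q0 c) := by
      have := measure_inter_add_sdiff (μ := volume) (J M δ a) (Ex_open ρ q0 c).measurableSet
      rw [hzero a ha, add_zero] at this
      exact this.symm
    have h2 : volume (J M δ a) = ENNReal.ofReal (2 * δ) := by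
      rw [J, Real.volume_Icc]
      congr 1
      ring
    rw [← h2, h1]
    have h3 : J M δ a ∩ Ex ρ q0 c ⊆ ⋃ k : ℕ, (J M δ a ∩ Nb (k + (Q + 1)) (c * ρ (k + (Q + 1)))) := by
      rintro y ⟨hy, hy2⟩
      simp only [Ex, Set.mem_iUnion] at hy2
      obtain ⟨q, hq1, hq2⟩ := hy2
      rw [Set.mem_iUnion]
      have h4 : Q + 1 ≤ q := by
        by_contra h5
        have h6 := hJQ a ha q hq1 (by omega)
        have : y ∈ J M δ a ∩ Nb q (c * ρ q) := ⟨hy, hq2⟩
        rw [h6] at this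
        exact this
      refine ⟨q - (Q + 1), hy, ?_⟩
      rw [Nat.sub_add_cancel h4]
      exact hq2
    exact le_trans (measure_mono h3) (measure_iUnion_le _)
  have hsum : (A.card : ENNReal) * ENNReal.ofReal (2 * δ) ≤
      ∑' k : ℕ, ∑ a ∈ A, volume (J M δ a ∩ Nb (k + (Q + 1)) (c * ρ (k + (Q + 1)))) := by
    rw [Summable.tsum_finsetSum (fun _ _ => ENNReal.summable)]
    rw [← nsmul_eq_mul, ← Finset.sum_const]
    exact Finset.sum_le_sum hle
  -- the upper bound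
  have hsX : Real.sqrt (2 / δ) ≤ γ / 64 * M := by
    have h1 : 2 / δ ≤ (γ / 64 * M) ^ 2 := by
      have h2 : ((m : ℝ) ^ (-(2 - τ / 2))) ^ 2 < (γ / 128) ^ 2 := by
        have := Real.rpow_nonneg hmR.le (-(2 - τ / 2))
        exact pow_lt_pow_left₀ hm3 this (by norm_num)
      have h3 : ((m : ℝ) ^ (-(2 - τ / 2))) ^ 2 = δ⁻¹ * ((M : ℝ) ^ 2)⁻¹ := by
        rw [hδ, ← Real.rpow_neg hmR.le, hM]
        push_cast
        rw [← pow_mul, ← Real.rpow_natCast (m : ℝ) (2 * 2), ← Real.rpow_neg hmR.le,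
          ← Real.rpow_add hmR, ← Real.rpow_natCast, ← Real.rpow_mul hmR.le]
        congr 1
        push_cast
        ring
      rw [h3] at h2
      have h4 : δ⁻¹ < (γ / 128) ^ 2 * (M : ℝ) ^ 2 := by
        rwa [← div_eq_mul_inv, div_lt_iff₀ (by positivity)] at h2
      rw [div_eq_mul_inv]
      nlinarith [sq_nonneg (γ * (M : ℝ))]
    calc Real.sqrt (2 / δ) ≤ Real.sqrt ((γ / 64 * M) ^ 2) := Real.sqrt_le_sqrt h1
      _ = γ / 64 * M := Real.sqrt_sq (by positivity)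
  have hdiv : (M.divisors.card : ℝ) = 3 := by
    rw [hM, Nat.divisors_prime_pow hmp]
    simp
  have hup : ∑' k : ℕ, ∑ a ∈ A, volume (J M δ a ∩ Nb (k + (Q + 1)) (c * ρ (k + (Q + 1)))) ≤
      ENNReal.ofReal (2 * δ * (8 * M * (γ / 64) + 4 * Real.sqrt (2 / δ) * 3)) := by
    refine ENNReal.tsum_le_of_sum_range_le fun K => ?_
    have h1 : ∀ k ∈ range K, ∑ a ∈ A, volume (J M δ a ∩ Nb (k + (Q + 1)) (c * ρ (k + (Q + 1)))) ≤
        ENNReal.ofReal (2 * δ * (8 * M * (((k + (Q + 1) : ℕ) : ℝ) * ρ (k + (Q + 1))) +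
          (Nat.gcd (k + (Q + 1)) M : ℝ) * min 1 ((2 / δ) / ((k + (Q + 1) : ℕ) : ℝ) ^ 2))) := by
      intro k _
      have h2 := hρ.nonneg (k + (Q + 1))
      have h2a : 0 ≤ c * ρ (k + (Q + 1)) := mul_nonneg (by linarith) h2
      have h2b : c * ρ (k + (Q + 1)) ≤ 2 * ρ (k + (Q + 1)) :=
        mul_le_mul_of_nonneg_right (by linarith) h2
      refine le_trans (sum_measure_le M (k + (Q + 1)) hMpos (Nat.succ_pos _) _ δ
        (c * ρ (k + (Q + 1))) hδ0.le h2a A hArange) ?_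
      refine ENNReal.ofReal_le_ofReal ?_
      exact term_le (k + (Q + 1)) M δ (c * ρ (k + (Q + 1))) (ρ (k + (Q + 1))) _ hδ0 h2a
        h2b (hρ.le _) (Nat.cast_nonneg _) (Nat.succ_pos _)
    refine le_trans (Finset.sum_le_sum h1) ?_
    have hnn : ∀ k : ℕ, 0 ≤ 8 * (M : ℝ) * (((k + (Q + 1) : ℕ) : ℝ) * ρ (k + (Q + 1))) +
          (Nat.gcd (k + (Q + 1)) M : ℝ) * min 1 ((2 / δ) / ((k + (Q + 1) : ℕ) : ℝ) ^ 2) := by
      intro k
      have h2 := hρ.nonneg (k + (Q + 1))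
      positivity
    rw [← ENNReal.ofReal_sum_of_nonneg (fun k _ => mul_nonneg (by positivity) (hnn k))]
    refine ENNReal.ofReal_le_ofReal ?_
    rw [← Finset.mul_sum, Finset.sum_add_distrib, ← Finset.mul_sum]
    refine mul_le_mul_of_nonneg_left ?_ (by positivity)
    refine add_le_add ?_ ?_
    · refine mul_le_mul_of_nonneg_left ?_ (by positivity)
      refine le_trans ?_ hQ.le
      have hs : Summable fun k : ℕ => ((k + (Q + 1) : ℕ) : ℝ) * ρ (k + (Q + 1)) :=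
        (summable_nat_add_iff (f := fun q : ℕ => (q : ℝ) * ρ q) (Q + 1)).2 hρ.summ
      exact hs.sum_le_tsum _ (fun k _ => by
        have := hρ.nonneg (k + (Q + 1))
        positivity)
    · have h3 := sum_gcd_le M hMpos (2 / δ) (by positivity) (K + (Q + 1))
      rw [hdiv] at h3
      refine le_trans ?_ h3
      rw [show ∑ k ∈ range K, (Nat.gcd (k + (Q + 1)) M : ℝ) *
          min 1 ((2 / δ) / ((k + (Q + 1) : ℕ) : ℝ) ^ 2) = ∑ q ∈ (range K).image (fun k => k + (Q + 1)),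
            (Nat.gcd q M : ℝ) * min 1 ((2 / δ) / (q : ℝ) ^ 2) from by
        rw [Finset.sum_image]
        intro x _ y _ h
        simp only at h
        omega]
      refine Finset.sum_le_sum_of_subset_of_nonneg ?_ (fun q _ _ => by positivity)
      intro q hq
      obtain ⟨k, hk, rfl⟩ := Finset.mem_image.1 hq
      rw [Finset.mem_range] at hk
      rw [Finset.mem_Icc]
      omega
  have hfin := le_trans hsum hup
  have h3 : (A.card : ENNReal) * ENNReal.ofReal (2 * δ) = ENNReal.ofReal (A.card * (2 * δ)) := by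
    rw [ENNReal.ofReal_mul (p := (A.card : ℝ)) (Nat.cast_nonneg _), ENNReal.ofReal_natCast]
  rw [h3] at hfin
  have h4 := (ENNReal.ofReal_le_ofReal_iff (by positivity)).1 hfin
  have h5 : (A.card : ℝ) ≤ 8 * M * (γ / 64) + 4 * Real.sqrt (2 / δ) * 3 := by
    have : 0 < 2 * δ := by positivity
    nlinarith
  have h6 : 0 < γ * M := by positivity
  nlinarith

end Pool.Agent.W5h30.Sq
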